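import Pool.Agent.H16.Conf23

namespace Pool.Agent.Results.MP_377d0a_co.TwentyThree

open Pool.Agent.H16.GeoConf

theorem result : ∃ P L, IsConf 23 4 23 4 P L := C23.main

end Pool.Agent.Results.MP_377d0a_co.TwentyThree
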